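import Pool.Agent.Q47.AB.Poly
import Pool.Agent.Q29.OvX

set_option autoImplicit false

/-! # Properties of the values over arbitrary constants at the points of sets of algebraic numbers -/

namespace Pool.Agent.Q47.AB

open Finset Pool.Agent.Q29.Eqd Pool.Agent.Q47.DG.Abs

open Pool.Agent.Y890.UC NumberField

def BadX (Pr : ℝ → ℕ → ℝ → Prop) {κ F : Type} [Field F] (n g d : ℕ) (ι : F →+* ℂ) (X : Finset F) (u : κ → ℝ → ℝ) (R r κ₀ M₁ M₂ : ℝ) (ξ : Fin g → ℝ) :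
    Set (Fin n → F) :=
  {q | (∀ h, q h ∈ X) ∧
    ∃ P : MvPolynomial (Fin n × κ) (MvPolynomial (Fin g) ℤ), (∀ j, P.degreeOf j ≤ d) ∧
      (∀ e i, (P.coeff e).degreeOf i ≤ d) ∧ (∀ e u, |(((P.coeff e).coeff u : ℤ) : ℝ)| ≤ R) ∧
      (∃ e, e ≠ 0 ∧ r ≤ |MvPolynomial.aeval ξ (P.coeff e)|) ∧
      ∃ M : ℕ, M₁ ≤ (M : ℝ) ∧ (M : ℝ) ≤ M₂ ∧ ¬ Pr κ₀ M (nval ξ (fun z => u z.2 (ι (q z.1)).re) P)}

theorem badX_fin (Pr : ℝ → ℕ → ℝ → Prop) {κ F : Type} [Field F] (n g d : ℕ) (ι : F →+* ℂ) (X : Finset F) (u : κ → ℝ → ℝ) (R r κ₀ M₁ M₂ : ℝ)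
    (ξ : Fin g → ℝ) : (BadX Pr n g d ι X u R r κ₀ M₁ M₂ ξ).Finite := by
  classical
  refine (Finset.finite_toSet (Fintype.piFinset fun _ : Fin n => X)).subset fun q hq => ?_
  rw [Finset.mem_coe, Fintype.mem_piFinset]
  exact hq.1

theorem badX_count {κ : Type} [Fintype κ] [DecidableEq κ] (u : κ → ℝ → ℝ) (a b : ℝ)
    (han : ∀ y, AnalyticOnNhd ℝ (u y) (Set.Icc a b)) (hind : Pool.Agent.Y120.AInd u a b)
    (m n g d : ℕ) (H A ε : ℝ) (hH : 0 ≤ H) (hA : 0 ≤ A) (hε : 0 < ε) :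
    ∃ B : ℝ, 1 ≤ B ∧ ∀ (Pr : ℝ → ℕ → ℝ → Prop), Engine Pr → ∀ E : ℝ, ∃ κ₀ C T₀ : ℝ, 0 < κ₀ ∧ ∀ (F : Type) [Field F] [NumberField F], Module.finrank ℚ F ≤ m →
      ∀ (ι : F →+* ℂ) (ξ : Fin g → ℝ) (T : ℝ), T₀ ≤ T → (∀ i, |ξ i| ≤ T ^ H) → ∀ X : Finset F, (∀ x ∈ X, IsPt ι a b T x) →
        ((BadX Pr n g d ι X u (T ^ A) (T ^ (-H)) κ₀ (T ^ B) (T ^ E) ξ).ncard : ℝ) ≤ C * T ^ ε * (X.card : ℝ) ^ (n - 1) := by
  classical
  obtain ⟨A', hA'⟩ : ∃ A' : ℝ, A' = A + (H + 1) * (d * (Fintype.card (Fin g) + Fintype.card (Fin n × κ))) + 2 := ⟨_, rfl⟩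
  obtain ⟨eq⟩ : Nonempty (Fin (Fintype.card (Fin g → Fin (d + 1))) ≃ (Fin g → Fin (d + 1))) :=
    ⟨(Fintype.equivFin _).symm⟩
  obtain ⟨B₀, C, T₀, hcount⟩ := Pool.Agent.Q23.AQ.fewR u a b (fun y t ht => han y t ht) hind m n
    (Fintype.card (Fin g → Fin (d + 1))) d A' ε hε
  obtain ⟨B, hBE⟩ : ∃ B : ℝ, B = max B₀ 0 := ⟨_, rfl⟩
  have hB : 0 ≤ B := by rw [hBE]; exact le_max_right _ _
  have hBB : B₀ ≤ B := by rw [hBE]; exact le_max_left _ _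
  have hbd : ∀ i, ∃ Y : ℝ, ∀ t ∈ Set.Icc a b, |u i t| ≤ Y := fun i => by
    obtain ⟨Y, hY⟩ := (isCompact_Icc.image_of_continuousOn
      (fun t ht => ((han i t ht).continuousAt.continuousWithinAt).abs)).bddAbove
    exact ⟨Y, fun t ht => hY ⟨t, ht, rfl⟩⟩
  choose Y hY using hbd
  obtain ⟨Z, hZ⟩ : ∃ Z : ℝ, Z = ∑ i, |Y i| := ⟨_, rfl⟩
  have hZle : ∀ i, Y i ≤ Z := by
    intro i
    rw [hZ]
    exact (le_abs_self _).trans (Finset.single_le_sum (f := fun i => |Y i|) (fun i _ => abs_nonneg _) (mem_univ i))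
  refine ⟨2 * (B + H) + 1, by linarith, fun Pr hPr E => ?_⟩
  obtain ⟨κ₀, hκ₀, T₁, hT₁, hgood⟩ := nested_good2 (G := Fin g) (τ := Fin n × κ) Pr hPr d E (H + 1) B A' H A (by linarith) hB hH hA
    (le_of_eq hA'.symm)
  refine ⟨κ₀, C, max (max T₀ T₁) (max Z 1), hκ₀, fun F _ _ hF ι ξ T hT hξ X hX => ?_⟩
  have hTT₀ : T₀ ≤ T := ((le_max_left _ _).trans (le_max_left _ _)).trans hT
  have hTT₁ : T₁ ≤ T := ((le_max_right _ _).trans (le_max_left _ _)).trans hT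
  have hTZ : Z ≤ T := ((le_max_left _ _).trans (le_max_right _ _)).trans hT
  have hT1 : 1 ≤ T := ((le_max_right _ _).trans (le_max_right _ _)).trans hT
  have hTp : 0 < T := by linarith
  refine le_trans ?_ (hcount F hF ι (fun s => ((∏ i, ξ i ^ ((eq s i : Fin (d + 1)) : ℕ) : ℝ) : ℂ)) T hTT₀ X hX)
  have hsub : BadX Pr n g d ι X u (T ^ A) (T ^ (-H)) κ₀ (T ^ (2 * (B + H) + 1)) (T ^ E) ξ ⊆
      {q : Fin n → F | (∀ h, q h ∈ X) ∧ ∃ P : MvPolynomial (Fin n × κ) ℂ, (∀ x, P.degreeOf x ≤ d) ∧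
          (∀ s, ∃ c : Fin (Fintype.card (Fin g → Fin (d + 1))) → 𝓞 F, (∀ a (φ : F →+* ℂ), ‖φ (c a)‖ ≤ T ^ A') ∧
            P.coeff s = ∑ a, ((∏ i, ξ i ^ ((eq a i : Fin (d + 1)) : ℕ) : ℝ) : ℂ) * ι (c a)) ∧
          ∃ s₀, P.coeff s₀ ≠ 0 ∧ ‖MvPolynomial.aeval (fun x : Fin n × κ => ((u x.2 (ι (q x.1)).re : ℝ) : ℂ)) P‖ ≤
            T ^ (-B₀) * ‖P.coeff s₀‖} := by
    rintro q ⟨hq, P, hPd, hPc, hPh, hPe, M, hM1, hM2, hbad⟩
    refine ⟨hq, ?_⟩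
    by_contra hcon
    apply hbad
    refine hgood T hTT₁ ξ _ (fun i => (hξ i).trans (Real.rpow_le_rpow_of_exponent_le hT1 (by linarith)))
      (fun z => ?_) (fun P hPd hPc hPh e he => ?_) M hM1 hM2 P hPd hPc hPh hPe
    · obtain ⟨⟨t, ht1, ht2, ht3⟩, -⟩ := hX _ (hq z.1)
      rw [ht3, Complex.ofReal_re]
      calc |u z.2 t| ≤ Y z.2 := hY z.2 t ⟨ht1, ht2⟩
        _ ≤ T := (hZle z.2).trans hTZ
        _ = T ^ (1 : ℝ) := (Real.rpow_one T).symm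
        _ ≤ T ^ (H + 1) := Real.rpow_le_rpow_of_exponent_le hT1 (by linarith)
    · by_contra hle
      push Not at hle
      apply hcon
      obtain ⟨φ, hφ⟩ : ∃ φ : MvPolynomial (Fin g) ℤ →+* ℂ,
        φ = (algebraMap ℝ ℂ).comp (MvPolynomial.aeval ξ : MvPolynomial (Fin g) ℤ →ₐ[ℤ] ℝ).toRingHom := ⟨_, rfl⟩
      have hφ1 : ∀ R, φ R = ((MvPolynomial.aeval ξ R : ℝ) : ℂ) := fun R => by rw [hφ]; rfl
      have hφ2 : ∀ R : MvPolynomial (Fin g) ℤ, MvPolynomial.aeval (fun i => (ξ i : ℂ)) R = φ R := by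
        intro R
        have h5 : (MvPolynomial.aeval (fun i => (ξ i : ℂ)) : MvPolynomial (Fin g) ℤ →ₐ[ℤ] ℂ).toRingHom = φ := by
          rw [hφ]
          apply MvPolynomial.ringHom_ext
          · intro r
            simp
          · intro i
            simp
        rw [← h5]
        rfl
      have hcoef : ∀ s, (MvPolynomial.map φ P).coeff s =
          ∑ a, ((∏ i, ξ i ^ ((eq a i : Fin (d + 1)) : ℕ) : ℝ) : ℂ) * ι (((P.coeff s).coeff (sO (eq a)) : ℤ) : 𝓞 F) := by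
        intro s
        rw [MvPolynomial.coeff_map, ← hφ2, MvPolynomial.aeval_def, eval₂_eq_sum (d := d) _ _ _ (hPc _)]
        refine (Fintype.sum_equiv eq _ _ fun a => ?_).symm
        rw [mul_comm]
        push_cast
        simp
      refine ⟨MvPolynomial.map φ P, fun x => ?_, fun s => ⟨fun a => (((P.coeff s).coeff (sO (eq a)) : ℤ) : 𝓞 F), ?_, hcoef s⟩,
        e, ?_, ?_⟩
      · rw [MvPolynomial.degreeOf_le_iff]
        intro s hs
        refine (MvPolynomial.degreeOf_le_iff.1 (hPd x)) s ?_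
        rw [MvPolynomial.mem_support_iff] at hs ⊢
        intro h0
        rw [MvPolynomial.coeff_map, h0, map_zero] at hs
        exact hs rfl
      · intro a ψ
        have h1 := hPh s (sO (eq a))
        simpa using h1
      · rw [MvPolynomial.coeff_map, hφ1]
        exact_mod_cast he
      · rw [MvPolynomial.coeff_map, hφ1, Complex.norm_real, Real.norm_eq_abs]
        have h6 : MvPolynomial.aeval (fun x : Fin n × κ => ((u x.2 (ι (q x.1)).re : ℝ) : ℂ)) (MvPolynomial.map φ P) =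
            ((nval ξ (fun z => u z.2 (ι (q z.1)).re) P : ℝ) : ℂ) := by
          rw [MvPolynomial.aeval_def, MvPolynomial.eval₂_map]
          unfold nval
          rw [hφ]
          exact (MvPolynomial.hom_eval₂ P _ (algebraMap ℝ ℂ) _).symm
        rw [h6, Complex.norm_real, Real.norm_eq_abs]
        refine hle.trans ?_
        refine mul_le_mul_of_nonneg_right ?_ (abs_nonneg _)
        exact Real.rpow_le_rpow_of_exponent_le hT1 (by linarith)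
  refine Nat.cast_le.2 (Set.ncard_le_ncard hsub ?_)
  refine (Finset.finite_toSet (Fintype.piFinset fun _ : Fin n => X)).subset fun q hq => ?_
  rw [Finset.mem_coe, Fintype.mem_piFinset]
  exact hq.1

end Pool.Agent.Q47.AB
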