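import Pool.Agent.Q47.AB.Poly

set_option autoImplicit false

/-! # Properties of the values of polynomials at almost all rational points -/

namespace Pool.Agent.Q47.AB

open Finset Pool.Agent.Q29.Eqd Pool.Agent.Q47.DG.Abs

/-- **A property of all polynomial values at almost all rational points**, from a bound for the number of the points with
small polynomial relations -/
theorem rat_poly {ι : Type} [Fintype ι] [DecidableEq ι] {n : ℕ}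
    (val : (Fin n → ℚ) → ι → ℝ) (d : ℕ) (a b X γ : ℝ)
    (hX : ∀ q : Fin n → ℚ, (∀ j, a ≤ q j ∧ (q j : ℝ) ≤ b) → ∀ i, |val q i| ≤ X) (hγ : 0 ≤ γ)
    (h : ∃ B C : ℝ, ∀ T : ℝ, 1 ≤ T →
      {q : Fin n → ℚ | (∀ j, a ≤ q j ∧ (q j : ℝ) ≤ b ∧ ((q j).den : ℝ) ≤ T) ∧ ∃ P : MvPolynomial ι ℤ, P ≠ 0 ∧
        (∀ x, P.degreeOf x ≤ d) ∧ (∀ c, |((P.coeff c : ℤ) : ℝ)| ≤ T ^ (1 : ℝ)) ∧
        |MvPolynomial.aeval (val q) P| ≤ T ^ (-B)}.Finite ∧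
      (({q : Fin n → ℚ | (∀ j, a ≤ q j ∧ (q j : ℝ) ≤ b ∧ ((q j).den : ℝ) ≤ T) ∧ ∃ P : MvPolynomial ι ℤ, P ≠ 0 ∧
        (∀ x, P.degreeOf x ≤ d) ∧ (∀ c, |((P.coeff c : ℤ) : ℝ)| ≤ T ^ (1 : ℝ)) ∧
        |MvPolynomial.aeval (val q) P| ≤ T ^ (-B)}.ncard : ℕ) : ℝ) ≤ C * T ^ γ) :
    ∃ B : ℝ, 1 ≤ B ∧ ∀ (Pr : ℝ → ℕ → ℝ → Prop), Engine Pr → ∀ E : ℝ, ∃ κ C : ℝ, 0 < κ ∧ ∀ T : ℝ, 1 ≤ T →
        {q : Fin n → ℚ | (∀ j, a ≤ q j ∧ (q j : ℝ) ≤ b ∧ ((q j).den : ℝ) ≤ T) ∧ ∃ P : MvPolynomial ι ℤ,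
          (∀ c : ℤ, P ≠ MvPolynomial.C c) ∧ (∀ x, P.degreeOf x ≤ d) ∧ ∃ M : ℕ, T ^ B ≤ (M : ℝ) ∧
          (M : ℝ) ≤ T ^ E ∧ (∀ c, |((P.coeff c : ℤ) : ℝ)| ≤ (M : ℝ) ^ κ) ∧ ¬ Pr κ M (MvPolynomial.aeval (val q) P)}.Finite ∧
        (({q : Fin n → ℚ | (∀ j, a ≤ q j ∧ (q j : ℝ) ≤ b ∧ ((q j).den : ℝ) ≤ T) ∧ ∃ P : MvPolynomial ι ℤ,
          (∀ c : ℤ, P ≠ MvPolynomial.C c) ∧ (∀ x, P.degreeOf x ≤ d) ∧ ∃ M : ℕ, T ^ B ≤ (M : ℝ) ∧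
          (M : ℝ) ≤ T ^ E ∧ (∀ c, |((P.coeff c : ℤ) : ℝ)| ≤ (M : ℝ) ^ κ) ∧
          ¬ Pr κ M (MvPolynomial.aeval (val q) P)}.ncard : ℕ) : ℝ) ≤ C * T ^ γ := by
  obtain ⟨B₀, C₀, h⟩ := h
  obtain ⟨B, hBE⟩ : ∃ B : ℝ, B = max B₀ 0 := ⟨_, rfl⟩
  have hB : 0 ≤ B := by rw [hBE]; exact le_max_right _ _
  have hBB : B₀ ≤ B := by rw [hBE]; exact le_max_left _ _
  refine ⟨2 * B + 1, by linarith, fun Pr hPr E => ?_⟩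
  obtain ⟨κ, hκ, -, T₀, hT₀, hgood⟩ := poly_good (ι := ι) Pr hPr d E (max X 1) B (le_max_right _ _) hB
  obtain ⟨C, hC⟩ := rat_transfer (n := n) a b γ C₀ T₀ hγ
    (fun T => {q : Fin n → ℚ | (∀ j, a ≤ q j ∧ (q j : ℝ) ≤ b ∧ ((q j).den : ℝ) ≤ T) ∧ ∃ P : MvPolynomial ι ℤ,
          (∀ c : ℤ, P ≠ MvPolynomial.C c) ∧ (∀ x, P.degreeOf x ≤ d) ∧ ∃ M : ℕ, T ^ (2 * B + 1) ≤ (M : ℝ) ∧
          (M : ℝ) ≤ T ^ E ∧ (∀ c, |((P.coeff c : ℤ) : ℝ)| ≤ (M : ℝ) ^ κ) ∧ ¬ Pr κ M (MvPolynomial.aeval (val q) P)})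
    (fun T => {q : Fin n → ℚ | (∀ j, a ≤ q j ∧ (q j : ℝ) ≤ b ∧ ((q j).den : ℝ) ≤ T) ∧ ∃ P : MvPolynomial ι ℤ, P ≠ 0 ∧
        (∀ x, P.degreeOf x ≤ d) ∧ (∀ c, |((P.coeff c : ℤ) : ℝ)| ≤ T ^ (1 : ℝ)) ∧
        |MvPolynomial.aeval (val q) P| ≤ T ^ (-B₀)})
    (fun T q hq => hq.1) h (by
      rintro T hT hTT q ⟨hq, P, hPc, hPd, M, hM1, hM2, hPM, hbad⟩
      refine ⟨hq, ?_⟩
      by_contra hcon
      push Not at hcon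
      apply hbad
      have hM1' : (1 : ℝ) ≤ M := (Real.one_le_rpow hT (by linarith)).trans hM1
      refine hgood T hTT (val q) (fun i => (hX q (fun j => ⟨(hq j).1, (hq j).2.1⟩) i).trans (le_max_left _ _))
        (fun P hP0 hPd hPc => ?_) M hM1 hM2 P hPc hPd
        (fun c => (hPM c).trans (Real.rpow_le_rpow_of_exponent_le hM1' (by linarith)))
      have h3 := hcon P hP0 hPd (fun c => by
        rw [Real.rpow_one]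
        exact hPc c)
      refine lt_of_le_of_lt ?_ h3
      exact Real.rpow_le_rpow_of_exponent_le hT (by linarith))
  exact ⟨κ, C, hκ, hC⟩

end Pool.Agent.Q47.AB
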