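import Pool.Agent.Q47.DG.Abs
import Pool.Agent.Q29.EqTM

set_option autoImplicit false

/-! # Families with simultaneous measures -/

namespace Pool.Agent.Q47.AB

open Finset Pool.Agent.Q29.Eqd Pool.Agent.Q47.DG.Abs

open Polynomial

def AllGood (Pr : ℝ → ℕ → ℝ → Prop) (x : ℝ) (D : ℕ) (A κ : ℝ) (N : ℕ) : Prop :=
  ∀ P : ℤ[X], 0 < P.natDegree → P.natDegree ≤ D → (∀ n, |(P.coeff n : ℝ)| ≤ (N : ℝ) ^ κ) →
    ∀ M : ℕ, N ≤ M → (M : ℝ) ≤ (N : ℝ) ^ A → Pr κ M (aeval x P)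

open Pool.Agent.TH456.TM in
theorem allGood_of_TM (Pr : ℝ → ℕ → ℝ → Prop) (hPr : Engine Pr) {ι : Type} [Fintype ι] (D : ℕ) (κ₀ A : ℝ) (hκ₀ : 0 ≤ κ₀) (hA : 1 ≤ A) :
    ∃ κ : ℝ, 0 < κ ∧ ∀ v : ι → ℝ, (∃ C : ℝ, 0 < C ∧ ∀ i j, i ≠ j → ∀ P Q : ℤ[X], P ≠ 0 → Q ≠ 0 →
        P.natDegree ≤ D → Q.natDegree ≤ D → ∀ H : ℝ, (ht P : ℝ) ≤ H → (ht Q : ℝ) ≤ H →
        C * H ^ (-κ₀) ≤ max ‖aeval (v i : ℂ) P‖ ‖aeval (v j : ℂ) Q‖) →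
      ∃ N₀ : ℕ, ∀ N : ℕ, N₀ ≤ N → {i | ¬ AllGood Pr (v i) D A κ N}.Subsingleton := by
  obtain ⟨δ, hδE⟩ : ∃ δ : ℝ, δ = 1 / (4 * (A + 1) * (κ₀ + 1)) := ⟨_, rfl⟩
  have hδ : 0 < δ := by rw [hδE]; positivity
  have hδ8 : δ ≤ 1 / 8 := by
    rw [hδE]
    apply one_div_le_one_div_of_le (by norm_num)
    nlinarith
  have hδA : (A * δ + δ) * κ₀ ≤ 1 / 4 := by
    have e1 : (A * δ + δ) * (κ₀ + 1) = 1 / 4 := by
      rw [hδE]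
      field_simp
    nlinarith
  obtain ⟨κ₁, hκ₁, hκ₁1, M₀, hM₀, hgood⟩ := hPr.1 δ hδ (by linarith)
  refine ⟨min κ₁ δ, lt_min hκ₁ hδ, fun v hv => ?_⟩
  obtain ⟨C, hC, hv⟩ := hv
  obtain ⟨B, hBE⟩ : ∃ B : ℝ, B = 1 + ∑ i, |v i| := ⟨_, rfl⟩
  have hB1 : 1 ≤ B := by
    rw [hBE]
    have : 0 ≤ ∑ i, |v i| := sum_nonneg fun i _ => abs_nonneg _
    linarith
  have hvB : ∀ i, |v i| ≤ B := by
    intro i
    rw [hBE]
    have : |v i| ≤ ∑ i, |v i| := single_le_sum (f := fun i => |v i|) (fun i _ => abs_nonneg _) (mem_univ i)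
    linarith
  obtain ⟨S, hS⟩ : ∃ S : ℝ, S = (D + 1) * B ^ D + 2 := ⟨_, rfl⟩
  have hS0 : 0 < S := by rw [hS]; positivity
  obtain ⟨M₁, hM₁, hbig⟩ := ev_rpow (1 / 2) (2 * (S ^ κ₀ / C)) (by norm_num)
  refine ⟨max M₀ M₁, fun N hN => ?_⟩
  have hNpos : 1 ≤ N := hM₁.trans ((le_max_right _ _).trans hN)
  have hN1 : (1 : ℝ) ≤ N := by exact_mod_cast hNpos
  have hN0 : (0 : ℝ) < N := by linarith
  have hbigN := hbig N ((le_max_right _ _).trans hN)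
  -- a failure gives a small value of a polynomial
  have key : ∀ i, ¬ AllGood Pr (v i) D A (min κ₁ δ) N → ∃ P : ℤ[X], P ≠ 0 ∧ P.natDegree ≤ D ∧
      (ht P : ℝ) ≤ (N : ℝ) ^ (A * δ + δ) * S ∧ ‖aeval (v i : ℂ) P‖ ≤ (N : ℝ) ^ (δ - 1) := by
    intro i hi
    unfold AllGood at hi
    push Not at hi
    obtain ⟨P, hP0, hPD, hPc, M, hNM, hMA, hbad⟩ := hi
    have hMpos : 1 ≤ M := hNpos.trans hNM
    have hM1 : (1 : ℝ) ≤ M := by exact_mod_cast hMpos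
    have hres : Res δ M (aeval (v i) P) := by
      by_contra hcon
      exact hbad (hPr.2 _ _ _ _ hMpos (min_le_left _ _) (hgood M (((le_max_left _ _).trans hN).trans hNM) _ hcon))
    obtain ⟨q, hq, hqM, a, ha⟩ := hres
    have hqN : (q : ℝ) ≤ (N : ℝ) ^ (A * δ) := by
      refine hqM.trans ?_
      rw [Real.rpow_mul hN0.le]
      exact Real.rpow_le_rpow (by positivity) hMA hδ.le
    have hPc' : ∀ n, |(P.coeff n : ℝ)| ≤ (N : ℝ) ^ δ := fun n =>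
      (hPc n).trans (Real.rpow_le_rpow_of_exponent_le hN1 (min_le_right _ _))
    have haN : |(q : ℝ) * aeval (v i) P - a| ≤ (N : ℝ) ^ (δ - 1) := by
      refine ha.trans ?_
      apply Real.rpow_le_rpow_of_nonpos hN0 (by exact_mod_cast hNM) (by linarith)
    have ha1 : |(q : ℝ) * aeval (v i) P - a| ≤ 1 := by
      refine haN.trans ?_
      exact Real.rpow_le_one_of_one_le_of_nonpos hN1 (by linarith)
    refine ⟨comb q a P, comb_ne q hq a P hP0, (comb_natDegree q hq a P hP0).le.trans hPD, ?_, ?_⟩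
    · apply Pool.Agent.Q29.DD.ht_le (by positivity)
      intro n
      have h1 := comb_coeff q hq a P D hPD ((N : ℝ) ^ δ) (Real.one_le_rpow hN1 hδ.le) hPc' (v i) B hB1 (hvB i)
        ((N : ℝ) ^ (A * δ)) hqN ha1 n
      rw [Real.rpow_add hN0, hS]
      exact h1
    · rw [← abs_aeval, comb_aeval]
      exact haN
  intro i hi j hj
  by_contra hij
  obtain ⟨P, hP0, hPD, hPh, hPv⟩ := key i hi
  obtain ⟨Q, hQ0, hQD, hQh, hQv⟩ := key j hj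
  have h1 := hv i j hij P Q hP0 hQ0 hPD hQD _ hPh hQh
  have h2 := h1.trans (max_le hPv hQv)
  have hX : 0 < (N : ℝ) ^ (A * δ + δ) * S := by positivity
  rw [Real.mul_rpow (by positivity) hS0.le, ← Real.rpow_mul hN0.le, Real.rpow_neg hS0.le] at h2
  have hSκ : 0 < S ^ κ₀ := by positivity
  -- C ≤ S^κ₀ N^((Aδ+δ)κ₀ + δ - 1)
  have h3 : C ≤ S ^ κ₀ * (N : ℝ) ^ ((A * δ + δ) * κ₀ + (δ - 1)) := by
    have e1 : C = (C * ((N : ℝ) ^ ((A * δ + δ) * -κ₀) * (S ^ κ₀)⁻¹)) * ((N : ℝ) ^ ((A * δ + δ) * κ₀) * S ^ κ₀) := by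
      have e2 : (N : ℝ) ^ ((A * δ + δ) * -κ₀) * (N : ℝ) ^ ((A * δ + δ) * κ₀) = 1 := by
        rw [← Real.rpow_add hN0, show (A * δ + δ) * -κ₀ + (A * δ + δ) * κ₀ = 0 by ring, Real.rpow_zero]
      calc C = C * ((N : ℝ) ^ ((A * δ + δ) * -κ₀) * (N : ℝ) ^ ((A * δ + δ) * κ₀)) * ((S ^ κ₀)⁻¹ * S ^ κ₀) := by
            rw [e2, inv_mul_cancel₀ hSκ.ne']
            ring
        _ = _ := by ring
    rw [e1]
    calc (C * ((N : ℝ) ^ ((A * δ + δ) * -κ₀) * (S ^ κ₀)⁻¹)) * ((N : ℝ) ^ ((A * δ + δ) * κ₀) * S ^ κ₀)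
        ≤ (N : ℝ) ^ (δ - 1) * ((N : ℝ) ^ ((A * δ + δ) * κ₀) * S ^ κ₀) :=
          mul_le_mul_of_nonneg_right h2 (by positivity)
      _ = _ := by
          rw [Real.rpow_add hN0]
          ring
  have h4 : (N : ℝ) ^ ((A * δ + δ) * κ₀ + (δ - 1)) ≤ (N : ℝ) ^ (-(1 / 2) : ℝ) :=
    Real.rpow_le_rpow_of_exponent_le hN1 (by linarith)
  have h5 : C * (N : ℝ) ^ (1 / 2 : ℝ) ≤ S ^ κ₀ := by
    have e3 : (N : ℝ) ^ (-(1 / 2) : ℝ) * (N : ℝ) ^ (1 / 2 : ℝ) = 1 := by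
      rw [← Real.rpow_add hN0]
      norm_num
    calc C * (N : ℝ) ^ (1 / 2 : ℝ) ≤ (S ^ κ₀ * (N : ℝ) ^ (-(1 / 2) : ℝ)) * (N : ℝ) ^ (1 / 2 : ℝ) := by
          apply mul_le_mul_of_nonneg_right _ (by positivity)
          exact h3.trans (mul_le_mul_of_nonneg_left h4 hSκ.le)
      _ = S ^ κ₀ := by rw [mul_assoc, e3, mul_one]
  have h6 : 2 * S ^ κ₀ ≤ C * (N : ℝ) ^ (1 / 2 : ℝ) := by
    calc 2 * S ^ κ₀ = C * (2 * (S ^ κ₀ / C)) := by field_simp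
      _ ≤ _ := mul_le_mul_of_nonneg_left hbigN hC.le
  linarith

end Pool.Agent.Q47.AB
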